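import Pool.Agent.Q205.QLim.Gen
import Pool.Agent.Y262.QE.Main

/-!
# Generic metrics: simple spectrum, lower and upper limits of the masses, local uniformity
-/

set_option autoImplicit false

open Set Filter Topology MeasureTheory
open scoped Real ContDiff

noncomputable section

namespace Pool.Agent.Q205.QLim

open Pool.Agent.Y262.QE Pool.Agent.Y264.QR Pool.Agent.Y363.QE

variable {M : Type} [MetricSpace M] [CompactSpace M] [MeasurableSpace M] [BorelSpace M]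
  (μ : Measure M) [IsFiniteMeasure μ] {H : Type} [NormedAddCommGroup H] [InnerProductSpace ℝ H]
  (i : H →L[ℝ] Lp ℝ 2 μ) (a : H →L[ℝ] H →L[ℝ] ℝ) (b : C(M, ℝ) → H →L[ℝ] H →L[ℝ] ℝ)

/-- vectors with the same masses have the same squares -/
theorem sq_eq {φ : C(M, ℝ)} {v w : H}
    (h : ∀ f : C(M, ℝ), kap μ i f φ v = kap μ i f φ w) :
    ∀ᵐ x ∂μ, (i v x) ^ 2 = (i w x) ^ 2 := by
  have hm : ∀ v : H, Measurable fun x => Real.exp (φ x) * (i v x) ^ 2 := fun v =>
    (Real.continuous_exp.comp φ.continuous).measurable.mul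
      ((Lp.stronglyMeasurable (i v)).measurable.pow_const 2)
  have h0 : ∀ (v : H) x, 0 ≤ Real.exp (φ x) * (i v x) ^ 2 := fun v x =>
    mul_nonneg (Real.exp_pos _).le (sq_nonneg _)
  have hint : ∀ v : H, Integrable (fun x => Real.exp (φ x) * (i v x) ^ 2) μ := by
    intro v
    have h1 := int_w (μ := μ) (w := fun x => (1 : C(M, ℝ)) x * Real.exp (φ x)) (wmeas 1 φ)
      (wbd 1 φ) (i v)
    refine h1.congr (Eventually.of_forall fun x => ?_)
    simp only [ContinuousMap.one_apply, one_mul]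
    ring
  have hfin : ∀ v : H, IsFiniteMeasure (wm μ fun x => Real.exp (φ x) * (i v x) ^ 2) := by
    intro v
    refine ⟨?_⟩
    unfold wm
    rw [withDensity_apply _ MeasurableSet.univ, Measure.restrict_univ]
    exact (hint v).lintegral_lt_top
  haveI := hfin v
  haveI := hfin w
  have heq : (wm μ fun x => Real.exp (φ x) * (i v x) ^ 2) =
      wm μ fun x => Real.exp (φ x) * (i w x) ^ 2 := by
    refine ext_of_forall_integral_eq_of_IsFiniteMeasure fun f => ?_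
    have h1 := h f.toContinuousMap
    rw [integral_wm μ _ (hm v) (h0 v), integral_wm μ _ (hm w) (h0 w)]
    unfold kap at h1
    have e : ∀ v : H, ∫ x, Real.exp (φ x) * (i v x) ^ 2 * f x ∂μ =
        ∫ x, f.toContinuousMap x * (Real.exp (φ x) * (i v x) ^ 2) ∂μ := fun v =>
      integral_congr_ae (Eventually.of_forall fun x => by
        show Real.exp (φ x) * (i v x) ^ 2 * f x = f x * (Real.exp (φ x) * (i v x) ^ 2)
        ring)
    rw [e v, e w]
    exact h1
  unfold wm at heq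
  have h2 := (withDensity_eq_iff (hm v).ennreal_ofReal.aemeasurable
    (hm w).ennreal_ofReal.aemeasurable (hint v).lintegral_lt_top.ne).1 heq
  filter_upwards [h2] with x hx
  have h3 := (ENNReal.ofReal_eq_ofReal_iff (h0 v x) (h0 w x)).1 hx
  exact mul_left_cancel₀ (Real.exp_pos _).ne' h3

section main

variable (hSf : Sf μ i a) (hB : IsB μ i b)
  (hex : ∀ φ, ∃ (e : ℕ → H) (E : ℕ → ℝ), Eg a (b φ) e E)

include hSf hB in
/-- if the masses are constant on the unit eigenvectors, the eigenvalue is simple -/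
theorem simple_of_const {φ : C(M, ℝ)} {e : ℕ → H} {E : ℕ → ℝ} (hE : Eg a (b φ) e E) {j : ℕ}
    (h : ∀ f : C(M, ℝ), ∀ v w, UE a (b φ) (E j) v → UE a (b φ) (E j) w →
      kap μ i f φ v = kap μ i f φ w) : E j < E (j + 1) := by
  obtain ⟨hF, -, -, -⟩ := facts μ i a b hSf hB
  refine lt_of_le_of_ne (hE.mono (Nat.le_succ j)) fun heq => ?_
  have hj : UE a (b φ) (E j) (e j) := ⟨by rw [hE.orth, if_pos rfl], hE.eig j⟩
  have h1 : b φ (e j) (e (j + 1)) = 0 := by rw [hE.orth, if_neg (by omega)]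
  have h2 : b φ (e (j + 1)) (e j) = 0 := by rw [hE.orth, if_neg (by omega)]
  have h3 : b φ (e j) (e j) = 1 := by rw [hE.orth, if_pos rfl]
  have h4 : b φ (e (j + 1)) (e (j + 1)) = 1 := by rw [hE.orth, if_pos rfl]
  have hs2 : (√2 : ℝ) * √2 = 2 := Real.mul_self_sqrt (by norm_num)
  have hs0 : (√2 : ℝ) ≠ 0 := by positivity
  have hs3 : (√2 : ℝ)⁻¹ * (√2 : ℝ)⁻¹ = 1 / 2 := by rw [← mul_inv, hs2]; norm_num
  have hz : ∀ s : ℝ, s ^ 2 = 1 → UE a (b φ) (E j) ((√2 : ℝ)⁻¹ • (e j + s • e (j + 1))) := by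
    intro s hs
    constructor
    · simp only [map_smul, map_add, add_apply, smul_apply, smul_eq_mul, h1, h2, h3, h4]
      calc (√2 : ℝ)⁻¹ * ((√2 : ℝ)⁻¹ * (1 + s * 0) + s * ((√2 : ℝ)⁻¹ * (0 + s * 1)))
          = (√2 : ℝ)⁻¹ * (√2 : ℝ)⁻¹ * (1 + s ^ 2) := by ring
        _ = 1 := by rw [hs3, hs]; norm_num
    · intro w
      simp only [map_smul, map_add, add_apply, smul_apply, smul_eq_mul]
      rw [hE.eig, hE.eig, ← heq]
      ring
  have hsq : ∀ s : ℝ, s ^ 2 = 1 → ∀ᵐ x ∂μ,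
      (1 / 2) * (i (e j) x + s * i (e (j + 1)) x) ^ 2 = (i (e j) x) ^ 2 := by
    intro s hs
    have h5 := sq_eq μ i (φ := φ) (fun f => h f _ _ (hz s hs) hj)
    have h6 := Lp.coeFn_smul (√2 : ℝ)⁻¹ (i (e j) + s • i (e (j + 1)))
    have h7 := Lp.coeFn_add (i (e j)) (s • i (e (j + 1)))
    have h8 := Lp.coeFn_smul s (i (e (j + 1)))
    filter_upwards [h5, h6, h7, h8] with x g1 g2 g3 g4
    rw [map_smul, map_add, map_smul] at g1
    rw [← g1, g2, Pi.smul_apply, g3, Pi.add_apply, g4, Pi.smul_apply, smul_eq_mul, smul_eq_mul,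
      mul_pow]
    have : ((√2 : ℝ)⁻¹) ^ 2 = 1 / 2 := by rw [sq]; exact hs3
    rw [this]
  have hzero : ∀ᵐ x ∂μ, i (e j) x = 0 := by
    filter_upwards [hsq 1 (by norm_num), hsq (-1) (by norm_num)] with x g1 g2
    set X := i (e j) x
    set Y := i (e (j + 1)) x
    have k1 : Y ^ 2 = X ^ 2 := by nlinarith
    have k2 : X * Y = 0 := by nlinarith
    have k3 : X ^ 2 * X ^ 2 = 0 := by
      calc X ^ 2 * X ^ 2 = X ^ 2 * Y ^ 2 := by rw [k1]
        _ = (X * Y) ^ 2 := by ring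
        _ = 0 := by rw [k2]; ring
    have k4 : X ^ 2 = 0 := mul_self_eq_zero.1 k3
    exact pow_eq_zero_iff two_ne_zero |>.1 k4
  have hb0 : b φ (e j) (e j) = 0 := by
    rw [hB]
    rw [← integral_zero M ℝ (μ := μ)]
    refine integral_congr_ae ?_
    filter_upwards [hzero] with x hx
    rw [hx]; ring
  rw [h3] at hb0
  exact one_ne_zero hb0

include hSf hB in
/-- a unit eigenvector of a simple eigenvalue has the masses of the vector of the basis -/
theorem kap_of_simple {φ : C(M, ℝ)} {e : ℕ → H} {E : ℕ → ℝ} (hE : Eg a (b φ) e E) {j : ℕ}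
    (hs : ∀ l, l ≠ j → E l ≠ E j) {v : H} (hv : UE a (b φ) (E j) v) (f : C(M, ℝ)) :
    kap μ i f φ v = kap μ i f φ (e j) := by
  obtain ⟨hF, -, -, hk⟩ := facts μ i a b hSf hB
  obtain ⟨k, ksym, k1, -⟩ := hk f
  obtain ⟨hv1, hvE⟩ := hv
  have h0 : ∀ l, l ≠ j → b φ v (e l) = 0 := by
    intro l hl
    have h1 := hvE (e l)
    rw [(hF φ).sa, hE.eig, (hF φ).sb (e l) v] at h1
    have h2 : (E l - E j) * b φ v (e l) = 0 := by rw [sub_mul, h1, sub_self]
    rcases mul_eq_zero.1 h2 with h3 | h3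
    · exact absurd (sub_eq_zero.1 h3) (hs l hl)
    · exact h3
  set c := b φ v (e j) with hc
  have hc2 : c ^ 2 = 1 := by
    have h1 := hE.sum v
    have h2 : HasSum (fun l => (b φ v (e l)) ^ 2) (c ^ 2) := by
      refine hasSum_single j fun l hl => ?_
      rw [h0 l hl]; ring
    rw [h2.unique h1]
    exact hv1
  set x := v - c • e j with hx
  have h3 : b φ (e j) (e j) = 1 := by rw [hE.orth, if_pos rfl]
  have hxx : b φ x x = 0 := by
    simp only [hx, map_sub, sub_apply, map_smul, smul_apply, smul_eq_mul, h3, hv1]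
    rw [(hF φ).sb (e j) v, ← hc]
    nlinarith
  have hkx : k φ x x = 0 := by
    have h4 := (k1 φ x).2
    rw [hxx, mul_zero] at h4
    exact abs_nonpos_iff.1 h4
  have hkxe : k φ x (e j) = 0 := by
    refine abs_nonpos_iff.1 (le_of_forall_pos_le_add fun ε hε => ?_)
    have h5 := cross2 (ksym φ) (hF φ).sb (fun v => (k1 φ v).2)
      (show (0 : ℝ) < (‖f‖ + 1) / ε by positivity) x (e j)
    rw [hxx, h3, mul_zero, zero_add] at h5
    refine h5.trans ?_
    have h6 : ‖f‖ * (1 / ((‖f‖ + 1) / ε)) / 2 = (‖f‖ / (‖f‖ + 1)) * ε / 2 := by field_simp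
    rw [h6, zero_add]
    have h7 : ‖f‖ / (‖f‖ + 1) ≤ 1 := by
      rw [div_le_one (by positivity)]; linarith
    have h8 : ‖f‖ / (‖f‖ + 1) * ε ≤ 1 * ε := mul_le_mul_of_nonneg_right h7 hε.le
    linarith
  rw [← (k1 φ v).1, ← (k1 φ (e j)).1]
  have e1 : v = x + c • e j := by rw [hx]; abel
  rw [e1]
  simp only [map_add, add_apply, map_smul, smul_apply, smul_eq_mul, hkx, hkxe]
  rw [ksym φ (e j) x, hkxe]
  have : c * (c * k φ (e j) (e j)) = c ^ 2 * k φ (e j) (e j) := by ring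
  linarith [this, hc2, (by rw [hc2, one_mul] : c ^ 2 * k φ (e j) (e j) = k φ (e j) (e j))]

variable (hW : Wl μ a b) {F : Type*} [AddCommGroup F] [Module ℝ F] [TopologicalSpace F]
  [IsTopologicalAddGroup F] [ContinuousSMul ℝ F] (ι : F →L[ℝ] C(M, ℝ))

omit [MeasurableSpace M] [BorelSpace M] in
theorem exists_countable (hι : DenseRange ι) : ∃ S : Set F, S.Countable ∧ (∀ s ∈ S, -s ∈ S) ∧
    ∀ (f : C(M, ℝ)) (ε : ℝ), 0 < ε → ∃ s ∈ S, ‖f - ι s‖ < ε := by
  haveI : TopologicalSpace.SeparableSpace (range ι) :=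
    (TopologicalSpace.IsSeparable.of_separableSpace (range ι)).separableSpace
  obtain ⟨t, hts, htc, htd⟩ := Dense.exists_countable_dense_subset (s := range ι) hι
  haveI := htc.to_subtype
  choose g hg using fun y : t => hts y.2
  refine ⟨range g ∪ range fun y => -g y, (countable_range _).union (countable_range _), ?_, ?_⟩
  · rintro s (⟨y, rfl⟩ | ⟨y, rfl⟩)
    · exact Or.inr ⟨y, rfl⟩
    · exact Or.inl ⟨y, by simp⟩
  · intro f ε hε
    obtain ⟨y, hy, hyt⟩ := Metric.dense_iff.1 htd f ε hε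
    refine ⟨g ⟨y, hyt⟩, Or.inl ⟨_, rfl⟩, ?_⟩
    rw [hg]
    rw [Metric.mem_ball, dist_comm, dist_eq_norm] at hy
    exact hy

include hSf hB hex hW in
theorem generic_main (hι : DenseRange ι) {J : ℕ → ℕ} (hJ : Tendsto J atTop atTop) :
    ∀ᶠ φ in residual F,
    (∀ (f : C(M, ℝ)) (j : ℕ), 0 < Ev a (b (ι φ)) j → ∀ v w,
      UE a (b (ι φ)) (Ev a (b (ι φ)) j) v → UE a (b (ι φ)) (Ev a (b (ι φ)) j) w →
        kap μ i f (ι φ) v = kap μ i f (ι φ) w) ∧
    (∀ (f : C(M, ℝ)) (c : ℝ), c < avg μ f (ι φ) → ∃ᶠ k in atTop, ∀ v,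
      UE a (b (ι φ)) (Ev a (b (ι φ)) (J k)) v → c < kap μ i f (ι φ) v) ∧
    (∀ (f : C(M, ℝ)) (c : ℝ), (∀ᶠ k in atTop, ∃ v, UE a (b (ι φ)) (Ev a (b (ι φ)) (J k)) v ∧
      kap μ i f (ι φ) v ≤ c) → ∀ ε : ℝ, 0 < ε → ∃ V ∈ 𝓝 φ, ∃ K : ℕ, ∀ ψ ∈ V, ∀ k, K ≤ k →
        (∀ (g : C(M, ℝ)) (v w : H), UE a (b (ι ψ)) (Ev a (b (ι ψ)) (J k)) v →
          UE a (b (ι ψ)) (Ev a (b (ι ψ)) (J k)) w → kap μ i g (ι ψ) v = kap μ i g (ι ψ) w) →
        ∀ v, UE a (b (ι ψ)) (Ev a (b (ι ψ)) (J k)) v → kap μ i f (ι ψ) v ≤ c + ε) := by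
  obtain ⟨hF, hA, hexp, hk⟩ := facts μ i a b hSf hB
  obtain ⟨S, hSc, -, hSd⟩ := exists_countable (M := M) ι hι
  have hkf : ∀ (f g φ : C(M, ℝ)) (E : ℝ) (v : H), UE a (b φ) E v →
      |kap μ i f φ v - kap μ i g φ v| ≤ ‖f - g‖ := by
    intro f g φ E v hv
    have := kap_sub_left μ i b hB f g φ v
    rwa [hv.1, mul_one] at this
  filter_upwards [generic_const μ i a b hSf hB hex hW ι hSc,
    generic_interior μ i a b hSf hB hex hW ι hSc J] with φ h1 h2
  refine ⟨?_, ?_, ?_⟩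
  · intro f j hj v w hv hw
    have h3 : |kap μ i f (ι φ) v - kap μ i f (ι φ) w| ≤ 0 := by
      refine le_of_forall_pos_le_add fun ε hε => ?_
      obtain ⟨s, hs, hsf⟩ := hSd f (ε / 2) (by positivity)
      have h4 := h1 s hs j hj v w hv hw
      have h5 := hkf f (ι s) (ι φ) _ v hv
      have h6 := hkf f (ι s) (ι φ) _ w hw
      rw [abs_le] at h5 h6 ⊢
      constructor <;> linarith [h5.1, h5.2, h6.1, h6.2]
    have := abs_nonpos_iff.1 h3
    linarith
  · intro f c hc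
    set ε : ℝ := avg μ f (ι φ) - c with hε
    have hεpos : 0 < ε := by rw [hε]; linarith
    obtain ⟨s, hs, hsf⟩ := hSd f (ε / 4) (by positivity)
    obtain ⟨q, hq1, hq2⟩ := exists_rat_btwn (show c + ε / 4 < avg μ f (ι φ) - ε / 4 by linarith)
    by_contra hno
    rw [not_frequently] at hno
    obtain ⟨n, hn⟩ := eventually_atTop.1 hno
    have hbad : ι φ ∈ Bad μ i a b (ι s) q J n := by
      intro k hk η hη
      have h3 := hn k hk
      push_neg at h3
      obtain ⟨v, hv, hvc⟩ := h3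
      refine ⟨v, hv, ?_⟩
      have h5 := (abs_le.1 (hkf f (ι s) (ι φ) _ v hv)).1
      linarith
    have h4 := interior_bad μ i a b hSf hB hex hW ι hJ (h2 s hs q n hbad)
    have h5 := (abs_le.1 (avg_sub μ hA f (ι s) (ι φ))).2
    linarith
  · intro f c hc ε hε
    obtain ⟨s, hs, hsf⟩ := hSd f (ε / 4) (by positivity)
    obtain ⟨q, hq1, hq2⟩ := exists_rat_btwn (show c + ε / 4 < c + ε / 2 by linarith)
    obtain ⟨n, hn⟩ := eventually_atTop.1 hc
    have hbad : ι φ ∈ Bad μ i a b (ι s) q J n := by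
      intro k hk η hη
      obtain ⟨v, hv, hvc⟩ := hn k hk
      refine ⟨v, hv, ?_⟩
      have h5 := (abs_le.1 (hkf f (ι s) (ι φ) _ v hv)).1
      linarith
    refine ⟨interior (ι ⁻¹' Bad μ i a b (ι s) q J n),
      isOpen_interior.mem_nhds (h2 s hs q n hbad), n, fun ψ hψ k hk hconst v hv => ?_⟩
    have h6 : kap μ i (ι s) (ι ψ) v ≤ q := by
      refine le_of_forall_pos_le_add fun η hη => ?_
      obtain ⟨v', hv', hvc'⟩ := interior_subset hψ k hk η hη
      rw [hconst (ι s) v v' hv hv']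
      exact hvc'
    have h7 := (abs_le.1 (hkf f (ι s) (ι ψ) _ v hv)).2
    linarith

end main

end Pool.Agent.Q205.QLim
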