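import Pool.Agent.Y390.QR.LIP

/-!
# Derivatives of the eigenvalues: the one-sided bound for an arbitrary unit eigenvector

(Adapted from helper390's theorem `der0` on the vectors of an eigenbasis.)
-/

set_option autoImplicit false

open Set Filter Topology MeasureTheory
open scoped Real ContDiff

noncomputable section

namespace Pool.Agent.Q205.QLim

open Pool.Agent.Y262.QE Pool.Agent.Y264.QR Pool.Agent.Y592.QE Pool.Agent.Y390.QR.LIP

/-- `v` is a unit vector for `b` and an eigenvector with the eigenvalue `E` -/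
def UE {H : Type} [NormedAddCommGroup H] [InnerProductSpace ℝ H] (a b : H →L[ℝ] H →L[ℝ] ℝ)
    (E : ℝ) (v : H) : Prop := b v v = 1 ∧ ∀ w, a v w = E * b v w

theorem der0' {H : Type} [NormedAddCommGroup H] [InnerProductSpace ℝ H]
    (a b : H →L[ℝ] H →L[ℝ] ℝ) (hF : Fm a b) (e : ℕ → H) (E : ℕ → ℝ) (hE : Eg a b e E)
    (k : H →L[ℝ] H →L[ℝ] ℝ) (K : ℝ) (ksym : ∀ u v, k u v = k v u) (hk : ∀ v, |k v v| ≤ K * b v v)
    (i : ℕ) (v : H) (hv : UE a b (E i) v) (hlt : ∀ l, l < i → E l < E i) (ε : ℝ) (hε : 0 < ε) :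
    ∃ δ : ℝ, 0 < δ ∧ ∀ τ : ℝ, |τ| < δ → ∀ b' : H →L[ℝ] H →L[ℝ] ℝ,
      (∀ v, b v v + τ * k v v ≤ b' v v) → Ev a b' i ≤ E i * (1 - k v v * τ) + ε * |τ| := by
  obtain ⟨hv1, hvE⟩ := hv
  have hvl : ∀ l, l < i → b (e l) v = 0 := by
    intro l hl
    have h1 := hvE (e l)
    have h2 := hE.eig l v
    rw [hF.sa, hF.sb v (e l)] at h1
    have h3 : (E i - E l) * b (e l) v = 0 := by rw [sub_mul, ← h1, ← h2, sub_self]
    rcases mul_eq_zero.1 h3 with h | h
    · have := hlt l hl
      linarith
    · exact h
  have hE0 : ∀ l, 0 ≤ E l := by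
    intro l
    have h1 := hF.na (e l)
    rw [hE.eig, hE.orth, if_pos rfl, mul_one] at h1
    exact h1
  have hκ : |k v v| ≤ K := by
    have h1 := hk v
    rwa [hv1, mul_one] at h1
  have hK : 0 ≤ K := (abs_nonneg _).trans hκ
  set lam := E i with hlam
  have hlam0 : 0 ≤ lam := hE0 i
  set κ := k v v with hκdef
  obtain ⟨g, hg, hgap⟩ := Pool.Agent.Y726.QE.exists_gap (Finset.range i) (fun l => lam - E l)
    (fun l hl => by
      have := hlt l (Finset.mem_range.1 hl)
      linarith)
  set s : ℝ := ε / (8 * lam * K + ε) with hs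
  have hs0 : 0 < s := by positivity
  have hs1 : s ≤ 1 := by
    rw [hs, div_le_one (by positivity)]
    have : 0 ≤ 8 * lam * K := by positivity
    linarith
  have hsε : 8 * lam * K * s ≤ ε := by
    rw [hs, mul_div_assoc', div_le_iff₀ (by positivity)]
    have : 0 ≤ ε * ε := by positivity
    nlinarith
  refine ⟨min (min ((1 / 8) / (K + 1)) ((ε / 4) / (lam * K ^ 2 + 1)))
    (min (1 / (K * (1 + 1 / s) + 1)) (g / (lam * (K * (2 + 1 / s)) + 1))), ?_, ?_⟩
  · refine lt_min (lt_min ?_ ?_) (lt_min ?_ ?_) <;> positivity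
  intro τ hτ b' hb'
  have h1 : K * |τ| ≤ 1 / 8 :=
    small hK (lt_of_lt_of_le hτ ((min_le_left _ _).trans (min_le_left _ _)))
  have h2 : lam * K ^ 2 * |τ| ≤ ε / 4 :=
    small (by positivity)
      (lt_of_lt_of_le hτ ((min_le_left _ _).trans (min_le_right _ _)))
  have h3 : K * (1 + 1 / s) * |τ| ≤ 1 :=
    small (by positivity)
      (lt_of_lt_of_le hτ ((min_le_right _ _).trans (min_le_left _ _)))
  have h4 : lam * (K * (2 + 1 / s)) * |τ| ≤ g :=
    small (by positivity) (lt_of_lt_of_le hτ ((min_le_right _ _).trans (min_le_right _ _)))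
  have hc := ineq_c hlam0 hκ hs0 hs1 hsε hε h1 h2
  have hy := ineq_y (g := g) hlam0 hκ hs0 hε h3 h4
  have ht := abs_nonneg τ
  have hμ : 0 ≤ lam * (1 - κ * τ) + ε * |τ| := by
    have h5 : κ * τ ≤ K * |τ| := by
      refine (le_abs_self _).trans ?_
      rw [abs_mul]
      exact mul_le_mul_of_nonneg_right hκ ht
    have h6 : 0 ≤ lam * (1 - κ * τ) := mul_nonneg hlam0 (by linarith)
    have h7 : 0 ≤ ε * |τ| := by positivity
    linarith
  -- the subspace
  let f : Fin (i + 1) → H := fun p => if (p : ℕ) < i then e p else v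
  have hfl : ∀ l : Fin i, f l.castSucc = e l := by
    intro l
    simp only [f, Fin.val_castSucc, if_pos l.2]
  have hfi : f (Fin.last i) = v := by
    simp only [f, Fin.val_last, lt_irrefl, if_false]
  have horth : ∀ p q : Fin (i + 1), b (f p) (f q) = if p = q then 1 else 0 := by
    intro p q
    simp only [f]
    have hp := p.2
    have hq := q.2
    split_ifs with hp1 hq1 hpq hpq hq1 hpq hpq
    · rw [hE.orth, if_pos (by rw [hpq])]
    · rw [hE.orth, if_neg (fun h => hpq (Fin.ext h))]
    · subst hpq; exact absurd hp1 hq1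
    · exact hvl _ hp1
    · subst hpq; exact absurd hq1 hp1
    · rw [hF.sb]; exact hvl _ hq1
    · exact hv1
    · exact absurd (Fin.ext (by omega)) hpq
  have hHD : HD a b' (lam * (1 - κ * τ) + ε * |τ|) i := by
    refine ⟨Submodule.span ℝ (range f), finrank_orth b horth, ?_⟩
    intro u hu
    obtain ⟨c, rfl⟩ := (Submodule.mem_span_range_iff_exists_fun ℝ).1 hu
    set x := c (Fin.last i) with hx
    let d : Fin i → ℝ := fun l => c l.castSucc
    set y : H := ∑ l : Fin i, d l • e l with hydef
    have hv' : ∑ p, c p • f p = y + x • v := by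
      rw [Fin.sum_univ_castSucc]
      congr 1
      · refine Finset.sum_congr rfl fun l _ => ?_
        rw [hfl]
      · rw [hfi]
    rw [hv']
    have ho := orth_fin b hE.orth i
    have hyy : b y y = ∑ l : Fin i, d l ^ 2 := b_orth_self b ho d
    have hY0 : 0 ≤ b y y := hF.nb y
    have hyj : b y v = 0 := by
      rw [hydef, b_sum_left]
      refine Finset.sum_eq_zero fun l _ => ?_
      rw [hvl l l.2, mul_zero]
    have hayy : a y y ≤ (lam - g) * b y y := by
      have h5 : a y y = ∑ l : Fin i, E l * d l ^ 2 := by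
        rw [hydef, b_sum_left]
        refine Finset.sum_congr rfl fun l _ => ?_
        rw [hE.eig, b_orth_coef b ho]
        ring
      rw [h5, hyy, Finset.mul_sum]
      refine Finset.sum_le_sum fun l _ => ?_
      have h6 := hgap l (Finset.mem_range.2 l.2)
      exact mul_le_mul_of_nonneg_right (by linarith) (sq_nonneg _)
    have hjj : b v v = 1 := hv1
    have hav : a (y + x • v) (y + x • v) = a y y + lam * x ^ 2 := by
      have h5 : a v y = 0 := by rw [hvE, hF.sb, hyj, mul_zero]
      have h6 : a y v = 0 := by rw [hF.sa, h5]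
      have h7 : a v v = lam := by rw [hvE, hjj, mul_one]
      simp only [map_add, map_smul, add_apply,
        smul_apply, smul_eq_mul, h5, h6, h7]
      ring
    have hbv : b (y + x • v) (y + x • v) = b y y + x ^ 2 := by
      have h6 : b v y = 0 := by rw [hF.sb, hyj]
      simp only [map_add, map_smul, add_apply,
        smul_apply, smul_eq_mul, hyj, h6, hjj]
      ring
    have hkv : k (y + x • v) (y + x • v) = k y y + 2 * x * k y v + κ * x ^ 2 := by
      simp only [map_add, map_smul, add_apply,
        smul_apply, smul_eq_mul]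
      rw [ksym v y]
      ring
    -- the cross term
    have hcross : |2 * x * k y v| ≤ K * (b y y / s + s * x ^ 2) := by
      have p1 := hk (y + (s * x) • v)
      have p2 := hk (y - (s * x) • v)
      have q1 : k (y + (s * x) • v) (y + (s * x) • v) =
          k y y + 2 * (s * x) * k y v + κ * (s * x) ^ 2 := by
        simp only [map_add, map_smul, add_apply,
          smul_apply, smul_eq_mul]
        rw [ksym v y]
        ring
      have q2 : k (y - (s * x) • v) (y - (s * x) • v) =
          k y y - 2 * (s * x) * k y v + κ * (s * x) ^ 2 := by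
        simp only [map_sub, map_smul, sub_apply,
          smul_apply, smul_eq_mul]
        rw [ksym v y]
        ring
      have r1 : b (y + (s * x) • v) (y + (s * x) • v) = b y y + (s * x) ^ 2 := by
        have h6 : b v y = 0 := by rw [hF.sb, hyj]
        simp only [map_add, map_smul, add_apply,
          smul_apply, smul_eq_mul, hyj, h6, hjj]
        ring
      have r2 : b (y - (s * x) • v) (y - (s * x) • v) = b y y + (s * x) ^ 2 := by
        have h6 : b v y = 0 := by rw [hF.sb, hyj]
        simp only [map_sub, map_smul, sub_apply,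
          smul_apply, smul_eq_mul, hyj, h6, hjj]
        ring
      rw [q1, r1] at p1
      rw [q2, r2] at p2
      have h5 : |s * (2 * x * k y v)| ≤ s * (K * (b y y / s + s * x ^ 2)) := by
        have h6 : s * (K * (b y y / s + s * x ^ 2)) = K * (b y y + (s * x) ^ 2) := by
          field_simp
        rw [h6]
        obtain ⟨u1, u2⟩ := abs_le.1 p1
        obtain ⟨w1, w2⟩ := abs_le.1 p2
        rw [abs_le]
        constructor <;> linarith
      rw [abs_mul, abs_of_pos hs0] at h5
      exact le_of_mul_le_mul_left h5 hs0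
    have hkyy := hk y
    set Y := b y y with hYdef
    have hlow : (1 + τ * κ - |τ| * (K * s)) * x ^ 2 + (1 - |τ| * (K * (1 + 1 / s))) * Y ≤
        b' (y + x • v) (y + x • v) := by
      refine le_trans ?_ (hb' _)
      rw [hbv, hkv]
      have h5 : -(|τ| * (K * Y + K * (Y / s + s * x ^ 2))) ≤
          τ * (k y y + 2 * x * k y v) := by
        have h6 : |τ * (k y y + 2 * x * k y v)| ≤
            |τ| * (K * Y + K * (Y / s + s * x ^ 2)) := by
          rw [abs_mul]
          refine mul_le_mul_of_nonneg_left ?_ ht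
          exact (abs_add_le _ _).trans (add_le_add hkyy hcross)
        exact (abs_le.1 h6).1
      have h7 : (1 + τ * κ - |τ| * (K * s)) * x ^ 2 + (1 - |τ| * (K * (1 + 1 / s))) * Y =
          Y + x ^ 2 + τ * (κ * x ^ 2) - |τ| * (K * Y + K * (Y / s + s * x ^ 2)) := by
        field_simp
        ring
      rw [h7]
      linarith
    rw [hav]
    have hx2 : 0 ≤ x ^ 2 := sq_nonneg x
    calc a y y + lam * x ^ 2 ≤ (lam - g) * Y + lam * x ^ 2 := by linarith
      _ ≤ ((lam * (1 - κ * τ) + ε * |τ|) * (1 - |τ| * (K * (1 + 1 / s)))) * Y +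
          ((lam * (1 - κ * τ) + ε * |τ|) * (1 + τ * κ - |τ| * (K * s))) * x ^ 2 :=
          add_le_add (mul_le_mul_of_nonneg_right hy hY0) (mul_le_mul_of_nonneg_right hc hx2)
      _ = (lam * (1 - κ * τ) + ε * |τ|) *
          ((1 + τ * κ - |τ| * (K * s)) * x ^ 2 + (1 - |τ| * (K * (1 + 1 / s))) * Y) := by ring
      _ ≤ _ := mul_le_mul_of_nonneg_left hlow hμ
  exact csInf_le ⟨0, fun x hx => hx.1⟩ ⟨hμ, hHD⟩

end Pool.Agent.Q205.QLim
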