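import Pool.Agent.Q205.QLim.Pert
import Pool.Agent.Y689.QR.CM

/-!
# Generic metrics: masses of eigenvectors along a sequence of indices
-/

set_option autoImplicit false

open Set Filter Topology MeasureTheory
open scoped Real ContDiff

noncomputable section

namespace Pool.Agent.Q205.QLim

open Pool.Agent.Y262.QE Pool.Agent.Y264.QR Pool.Agent.Y363.QE

theorem ev_interior {X : Type*} [TopologicalSpace X] {A : Set X} (hA : IsClosed A) :
    ∀ᶠ x in residual X, x ∈ A → x ∈ interior A := by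
  have h1 : IsOpen (frontier A)ᶜ := isClosed_frontier.isOpen_compl
  have h2 : Dense (frontier A)ᶜ := interior_eq_empty_iff_dense_compl.1 (interior_frontier hA)
  filter_upwards [residual_of_dense_open h1 h2] with x hx hxA
  by_contra hno
  exact hx ⟨subset_closure hxA, hno⟩

variable {M : Type} [MetricSpace M] [CompactSpace M] [MeasurableSpace M] [BorelSpace M]
  (μ : Measure M) [IsFiniteMeasure μ] {H : Type} [NormedAddCommGroup H] [InnerProductSpace ℝ H]
  (i : H →L[ℝ] Lp ℝ 2 μ) (a : H →L[ℝ] H →L[ℝ] ℝ) (b : C(M, ℝ) → H →L[ℝ] H →L[ℝ] ℝ)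

theorem avg_sub (hA : ∀ φ : C(M, ℝ), 0 < ∫ x, Real.exp (φ x) ∂μ) (f f' φ : C(M, ℝ)) :
    |avg μ f φ - avg μ f' φ| ≤ ‖f - f'‖ := by
  have h1 : avg μ f φ - avg μ f' φ = avg μ (f - f') φ := by
    unfold avg
    rw [← sub_div, ← integral_sub (Pool.Agent.Y155.QR.int_cont μ (by fun_prop))
      (Pool.Agent.Y155.QR.int_cont μ (by fun_prop))]
    congr 1
    refine integral_congr_ae (Eventually.of_forall fun x => ?_)
    simp only [ContinuousMap.sub_apply]
    ring
  rw [h1]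
  exact Pool.Agent.Y155.QR.avg_le μ hA φ (f - f')

theorem avg_continuous (hA : ∀ φ : C(M, ℝ), 0 < ∫ x, Real.exp (φ x) ∂μ) (f : C(M, ℝ)) :
    Continuous fun φ => avg μ f φ := by
  letI : MeasurableSpace C(M, ℝ) := borel _
  haveI : BorelSpace C(M, ℝ) := ⟨rfl⟩
  exact (Pool.Agent.Y689.QR.cm M μ).2.1 f

theorem kap_neg (f φ : C(M, ℝ)) (v : H) : kap μ i (-f) φ v = -kap μ i f φ v := by
  unfold kap
  rw [← integral_neg]
  refine integral_congr_ae (Eventually.of_forall fun x => ?_)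
  simp only [ContinuousMap.neg_apply]
  ring

/-- for all `k ≥ n` the smallest mass of `h` of the unit eigenvectors of the eigenvalue with the
index `J k` is at most `c` -/
def Bad (h : C(M, ℝ)) (c : ℝ) (J : ℕ → ℕ) (n : ℕ) : Set C(M, ℝ) :=
  {φ | ∀ k, n ≤ k → ∀ η : ℝ, 0 < η → ∃ v, UE a (b φ) (Ev a (b φ) (J k)) v ∧
    kap μ i h φ v ≤ c + η}

section main

variable (hSf : Sf μ i a) (hB : IsB μ i b)
  (hex : ∀ φ, ∃ (e : ℕ → H) (E : ℕ → ℝ), Eg a (b φ) e E)

include hSf hB hex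

theorem isClosed_bad (h : C(M, ℝ)) (c : ℝ) (J : ℕ → ℕ) (n : ℕ) :
    IsClosed (Bad μ i a b h c J n) := by
  rw [← isOpen_compl_iff, Metric.isOpen_iff]
  intro φ hφ
  simp only [Bad, mem_compl_iff, mem_setOf_eq, not_forall, not_exists, not_and, not_le] at hφ
  obtain ⟨k, hk, η, hη, hv⟩ := hφ
  obtain ⟨δ, hδ, hp⟩ := pert μ i a b hSf hB hex φ (J k) h (half_pos hη)
  refine ⟨δ, hδ, fun ψ hψ hbad => ?_⟩
  rw [Metric.mem_ball, dist_eq_norm] at hψ
  obtain ⟨w, hw, hwc⟩ := hbad k hk (η / 2) (half_pos hη)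
  obtain ⟨v, hv1, hv2⟩ := hp ψ hψ w hw
  have h1 := hv v hv1
  have h2 := (abs_le.1 hv2).2
  linarith

/-- existence of unit eigenvectors -/
theorem exists_UE (φ : C(M, ℝ)) (j : ℕ) : ∃ v, UE a (b φ) (Ev a (b φ) j) v := by
  obtain ⟨hF, -, -, -⟩ := facts μ i a b hSf hB
  obtain ⟨e, E, hE⟩ := hex φ
  refine ⟨e j, ?_, ?_⟩
  · rw [hE.orth, if_pos rfl]
  · intro w
    rw [Pool.Agent.Y592.QE.mm H a (b φ) (hF φ) e E hE j]
    exact hE.eig j w

variable (hW : Wl μ a b)

include hW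

/-- on almost every metric of a line the mass of the direction is constant on unit eigenvectors -/
theorem const_ae (φ h : C(M, ℝ)) : ∀ᵐ t : ℝ, ∀ j, 0 < Ev a (b (φ + t • h)) j →
    ∀ v w, UE a (b (φ + t • h)) (Ev a (b (φ + t • h)) j) v →
      UE a (b (φ + t • h)) (Ev a (b (φ + t • h)) j) w →
        kap μ i h (φ + t • h) v = kap μ i h (φ + t • h) w := by
  classical
  have hch : ∀ (t : ℝ) (j : ℕ), ∃ p : H × H, UE a (b (φ + t • h)) (Ev a (b (φ + t • h)) j) p.1 ∧
      UE a (b (φ + t • h)) (Ev a (b (φ + t • h)) j) p.2 ∧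
      (kap μ i h (φ + t • h) p.1 = kap μ i h (φ + t • h) p.2 → ∀ v w,
        UE a (b (φ + t • h)) (Ev a (b (φ + t • h)) j) v →
        UE a (b (φ + t • h)) (Ev a (b (φ + t • h)) j) w →
        kap μ i h (φ + t • h) v = kap μ i h (φ + t • h) w) := by
    intro t j
    by_cases hc : ∃ p : H × H, UE a (b (φ + t • h)) (Ev a (b (φ + t • h)) j) p.1 ∧
      UE a (b (φ + t • h)) (Ev a (b (φ + t • h)) j) p.2 ∧
      kap μ i h (φ + t • h) p.1 ≠ kap μ i h (φ + t • h) p.2
    · obtain ⟨p, h1, h2, h3⟩ := hc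
      exact ⟨p, h1, h2, fun h4 => absurd h4 h3⟩
    · push_neg at hc
      obtain ⟨v, hv⟩ := exists_UE μ i a b hSf hB hex (φ + t • h) j
      exact ⟨(v, v), hv, hv, fun _ v w hv hw => hc (v, w) hv hw⟩
  choose p hp1 hp2 hp3 using hch
  obtain ⟨d1, -, -⟩ := oneV μ i a b hSf hB hW hex φ h (fun t j => (p t j).1) hp1
  obtain ⟨d2, -, -⟩ := oneV μ i a b hSf hB hW hex φ h (fun t j => (p t j).2) hp2
  filter_upwards [d1, d2] with t h1 h2 j hpos v w hv hw
  refine hp3 t j ?_ v w hv hw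
  have h3 := (h1 j).unique (h2 j)
  exact mul_right_cancel₀ hpos.ne' (neg_injective h3)

variable {F : Type*} [AddCommGroup F] [Module ℝ F] [TopologicalSpace F]
  [IsTopologicalAddGroup F] [ContinuousSMul ℝ F] (ι : F →L[ℝ] C(M, ℝ))

theorem interior_bad {J : ℕ → ℕ} (hJ : Tendsto J atTop atTop) {φ h : F} {c : ℝ} {n : ℕ}
    (hint : φ ∈ interior (ι ⁻¹' Bad μ i a b (ι h) c J n)) : avg μ (ι h) (ι φ) ≤ c := by
  classical
  obtain ⟨hF, hA, hexp, hk⟩ := facts μ i a b hSf hB
  by_contra hcon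
  push_neg at hcon
  set A0 := avg μ (ι h) (ι φ) with hA0
  set c' : ℝ := (c + A0) / 2 with hc'
  set η : ℝ := (c' - c) / 2 with hη
  have hηpos : 0 < η := by rw [hη, hc']; linarith
  have hline : ∀ t : ℝ, ι (φ + t • h) = ι φ + t • ι h := fun t => by
    rw [map_add, map_smul]
  have hcl : Continuous fun t : ℝ => φ + t • h := by fun_prop
  have hcl' : Continuous fun t : ℝ => ι φ + t • ι h := by fun_prop
  have n1 : ∀ᶠ t in 𝓝 (0 : ℝ), φ + t • h ∈ interior (ι ⁻¹' Bad μ i a b (ι h) c J n) := by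
    refine (hcl.tendsto 0).eventually (isOpen_interior.mem_nhds ?_)
    simpa using hint
  have n2 : ∀ᶠ t in 𝓝 (0 : ℝ), c' < avg μ (ι h) (ι φ + t • ι h) := by
    refine (((avg_continuous μ hA (ι h)).comp hcl').tendsto 0).eventually
      (lt_mem_nhds ?_)
    simp only [Function.comp, zero_smul, add_zero]
    rw [← hA0, hc']; linarith
  obtain ⟨s0, hs0, hs0'⟩ := Metric.eventually_nhds_iff.1 (n1.and n2)
  set s : ℝ := s0 / 2 with hs
  have hspos : 0 < s := by positivity
  have hsin : ∀ t ∈ Icc (0 : ℝ) s, dist t 0 < s0 := by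
    intro t ht
    rw [Real.dist_eq, sub_zero, abs_of_nonneg ht.1]
    have := ht.2
    linarith
  -- the choice of the eigenvectors
  have hch : ∀ (t : ℝ) (j : ℕ), ∃ v, UE a (b (ι φ + t • ι h)) (Ev a (b (ι φ + t • ι h)) j) v ∧
      ((∃ v', UE a (b (ι φ + t • ι h)) (Ev a (b (ι φ + t • ι h)) j) v' ∧
        kap μ i (ι h) (ι φ + t • ι h) v' ≤ c + η) → kap μ i (ι h) (ι φ + t • ι h) v ≤ c + η) := by
    intro t j
    by_cases hc : ∃ v', UE a (b (ι φ + t • ι h)) (Ev a (b (ι φ + t • ι h)) j) v' ∧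
        kap μ i (ι h) (ι φ + t • ι h) v' ≤ c + η
    · obtain ⟨v', h1, h2⟩ := hc
      exact ⟨v', h1, fun _ => h2⟩
    · obtain ⟨v, hv⟩ := exists_UE μ i a b hSf hB hex (ι φ + t • ι h) j
      exact ⟨v, hv, fun h1 => absurd h1 hc⟩
  choose v hv1 hv2 using hch
  obtain ⟨-, ⟨J0, hJ0⟩, hlim⟩ := oneV μ i a b hSf hB hW hex (ι φ) (ι h) v hv1
  set χ : ℝ → ℝ := (Icc (0 : ℝ) s).indicator 1 with hχ
  have hχint : Integrable χ volume := by
    rw [hχ, integrable_indicator_iff measurableSet_Icc]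
    exact integrableOn_const (by simp) 
  have h1 := (hlim χ hχint).comp hJ
  have hχmul : ∀ g : ℝ → ℝ, ∫ t, χ t * g t = ∫ t in Icc (0 : ℝ) s, g t := by
    intro g
    rw [← integral_indicator measurableSet_Icc]
    refine integral_congr_ae (Eventually.of_forall fun t => ?_)
    simp only [hχ, indicator]
    split_ifs <;> simp
  have hvol : volume.real (Icc (0 : ℝ) s) = s := by
    rw [Real.volume_real_Icc, sub_zero, max_eq_left hspos.le]
  -- upper bound
  have hup : ∀ᶠ k in atTop, ∫ t, χ t * kap μ i (ι h) (ι φ + t • ι h) (v t (J k)) ≤ (c + η) * s := by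
    filter_upwards [hJ.eventually (eventually_ge_atTop J0), eventually_ge_atTop n] with k hk hkn
    rw [hχmul]
    obtain ⟨g1, g2⟩ := hJ0 (J k) hk
    have hint' : IntegrableOn (fun t : ℝ => kap μ i (ι h) (ι φ + t • ι h) (v t (J k)))
        (Icc 0 s) volume := by
      refine Measure.integrableOn_of_bounded (M := ‖ι h‖) (by simp) g2.aestronglyMeasurable ?_
      exact ae_restrict_of_ae (g1.mono fun t ht => by rw [Real.norm_eq_abs]; exact ht)
    calc ∫ t in Icc (0 : ℝ) s, kap μ i (ι h) (ι φ + t • ι h) (v t (J k))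
        ≤ ∫ t in Icc (0 : ℝ) s, (c + η) := by
          refine setIntegral_mono_on hint' (integrableOn_const (by simp)) measurableSet_Icc ?_
          intro t ht
          refine hv2 t (J k) ?_
          have h2 := interior_subset (hs0' (hsin t ht)).1
          simp only [mem_preimage, hline] at h2
          exact h2 k hkn η hηpos
      _ = (c + η) * s := by
          rw [setIntegral_const, hvol, smul_eq_mul, mul_comm]
  have hle : ∫ t, χ t * avg μ (ι h) (ι φ + t • ι h) ≤ (c + η) * s := le_of_tendsto h1 hup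
  have hge : c' * s ≤ ∫ t, χ t * avg μ (ι h) (ι φ + t • ι h) := by
    rw [hχmul]
    calc c' * s = ∫ t in Icc (0 : ℝ) s, c' := by
          rw [setIntegral_const, hvol, smul_eq_mul, mul_comm]
      _ ≤ _ := by
          refine setIntegral_mono_on (integrableOn_const (by simp)) ?_ measurableSet_Icc ?_
          · exact ((avg_continuous μ hA (ι h)).comp hcl').continuousOn.integrableOn_Icc
          · intro t ht
            exact (hs0' (hsin t ht)).2.le
  have h5 : c' * s ≤ (c + η) * s := hge.trans hle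
  have h6 := le_of_mul_le_mul_right h5 hspos
  rw [hη, hc'] at h6
  linarith

/-- generic parameters: the set `Bad` is left only through its interior -/
theorem generic_interior {S : Set F} (hS : S.Countable) (J : ℕ → ℕ) :
    ∀ᶠ φ in residual F, ∀ h ∈ S, ∀ (q : ℚ) (n : ℕ), ι φ ∈ Bad μ i a b (ι h) q J n →
      φ ∈ interior (ι ⁻¹' Bad μ i a b (ι h) q J n) := by
  haveI := hS.to_subtype
  have h1 : ∀ᶠ φ in residual F, ∀ (h : S) (q : ℚ) (n : ℕ), ι φ ∈ Bad μ i a b (ι h) q J n →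
      φ ∈ interior (ι ⁻¹' Bad μ i a b (ι h) q J n) := by
    rw [eventually_countable_forall]
    intro h
    rw [eventually_countable_forall]
    intro q
    rw [eventually_countable_forall]
    intro n
    exact ev_interior ((isClosed_bad μ i a b hSf hB hex (ι h) q J n).preimage ι.continuous)
  filter_upwards [h1] with φ hφ h hh q n
  exact hφ ⟨h, hh⟩ q n

/-- generic parameters: the masses are constant on the unit eigenvectors of an eigenvalue -/
theorem generic_const {S : Set F} (hS : S.Countable) :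
    ∀ᶠ φ in residual F, ∀ h ∈ S, ∀ j, 0 < Ev a (b (ι φ)) j → ∀ v w,
      UE a (b (ι φ)) (Ev a (b (ι φ)) j) v → UE a (b (ι φ)) (Ev a (b (ι φ)) j) w →
        kap μ i (ι h) (ι φ) v = kap μ i (ι h) (ι φ) w := by
  obtain ⟨hF, hA, hexp, hk⟩ := facts μ i a b hSf hB
  obtain ⟨-, -, -, -, l5⟩ := Pool.Agent.Y390.QR.LIP.lip M μ H a b hF hexp
  haveI := hS.to_subtype
  set O : S → ℕ → ℕ → Set C(M, ℝ) := fun h j r => {φ | ∃ η : ℝ, 0 < η ∧ ∀ v w,
      UE a (b φ) (Ev a (b φ) j) v → UE a (b φ) (Ev a (b φ) j) w →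
        |kap μ i (ι h) φ v - kap μ i (ι h) φ w| ≤ 1 / ((r : ℝ) + 1) - η} with hO
  have hopen : ∀ h j r, IsOpen (O h j r) := by
    intro h j r
    rw [Metric.isOpen_iff]
    rintro φ ⟨η, hη, hv⟩
    obtain ⟨δ, hδ, hp⟩ := pert μ i a b hSf hB hex φ j (ι h) (show 0 < η / 4 by positivity)
    refine ⟨δ, hδ, fun ψ hψ => ⟨η / 2, by positivity, fun v' w' hv' hw' => ?_⟩⟩
    rw [Metric.mem_ball, dist_eq_norm] at hψ
    obtain ⟨v, hv1, hv2⟩ := hp ψ hψ v' hv'
    obtain ⟨w, hw1, hw2⟩ := hp ψ hψ w' hw'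
    have h1 := hv v w hv1 hw1
    rw [abs_le] at h1 hv2 hw2 ⊢
    constructor <;> linarith [h1.1, h1.2, hv2.1, hv2.2, hw2.1, hw2.2]
  have hdense : ∀ (h : S) (j r : ℕ), (∀ φ, 0 < Ev a (b φ) j) → Dense (ι ⁻¹' O h j r) := by
    intro h j r hpos
    rw [dense_iff_inter_open]
    rintro U hU ⟨φ, hφ⟩
    have hcl : Continuous fun t : ℝ => φ + t • (h : F) := by fun_prop
    have hU' : IsOpen ((fun t : ℝ => φ + t • (h : F)) ⁻¹' U) := hU.preimage hcl
    have hne : ((fun t : ℝ => φ + t • (h : F)) ⁻¹' U).Nonempty := ⟨0, by simpa using hφ⟩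
    have hae := const_ae μ i a b hSf hB hex hW (ι φ) (ι h)
    have hpm : volume ((fun t : ℝ => φ + t • (h : F)) ⁻¹' U) ≠ 0 := (hU'.measure_pos volume hne).ne'
    obtain ⟨t, htU, ht⟩ := Measure.exists_mem_of_measure_ne_zero_of_ae hpm (ae_restrict_of_ae hae)
    refine ⟨φ + t • (h : F), htU, ?_⟩
    simp only [mem_preimage, hO, mem_setOf_eq, map_add, map_smul]
    refine ⟨1 / ((r : ℝ) + 1), by positivity, fun v w hv hw => ?_⟩
    rw [ht j (hpos _) v w hv hw, sub_self, abs_zero, sub_self]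
  have h1 : ∀ᶠ φ in residual F, ∀ (h : S) (j r : ℕ), (∀ φ, 0 < Ev a (b φ) j) →
      ι φ ∈ O h j r := by
    rw [eventually_countable_forall]
    intro h
    rw [eventually_countable_forall]
    intro j
    rw [eventually_countable_forall]
    intro r
    by_cases hpos : ∀ φ, 0 < Ev a (b φ) j
    · filter_upwards [residual_of_dense_open ((hopen h j r).preimage ι.continuous)
        (hdense h j r hpos)] with φ hφ _
      exact hφ
    · exact Eventually.of_forall fun φ h => absurd h hpos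
  filter_upwards [h1] with φ hφ h hh j hj v w hv hw
  have hpos : ∀ φ, 0 < Ev a (b φ) j := by
    rcases l5 j with h0 | h0
    · rw [h0] at hj; exact absurd hj (lt_irrefl _)
    · exact h0
  have h2 : |kap μ i (ι h) (ι φ) v - kap μ i (ι h) (ι φ) w| ≤ 0 := by
    refine le_of_forall_pos_le_add fun ε hε => ?_
    obtain ⟨r, hr⟩ := exists_nat_one_div_lt hε
    obtain ⟨η, hη, h3⟩ := hφ ⟨h, hh⟩ j r hpos
    have h4 := h3 v w hv hw
    simp only at h4
    linarith
  have := abs_nonpos_iff.1 h2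
  linarith

end main

end Pool.Agent.Q205.QLim
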