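import Pool.Agent.Q205.QLim.Der
import Pool.Agent.Y155.QR.One
import Pool.Agent.Y147.QR.AE
import Pool.Agent.Y401.QR.Dens
import Pool.Agent.Y419.QR.Fm

/-!
# One parameter, for an arbitrary choice of unit eigenvectors

(Adapted from helper155's theorem `oneP`.)
-/

set_option autoImplicit false

open Set Filter Topology MeasureTheory
open scoped Real ContDiff

noncomputable section

namespace Pool.Agent.Q205.QLim

open Pool.Agent.Y262.QE Pool.Agent.Y264.QR Pool.Agent.Y155.QR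

variable {M : Type} [MetricSpace M] [CompactSpace M] [MeasurableSpace M] [BorelSpace M]
  (μ : Measure M) [IsFiniteMeasure μ] {H : Type} [NormedAddCommGroup H] [InnerProductSpace ℝ H]
  (i : H →L[ℝ] Lp ℝ 2 μ) (a : H →L[ℝ] H →L[ℝ] ℝ) (b : C(M, ℝ) → H →L[ℝ] H →L[ℝ] ℝ)

/-- the facts on the forms -/
theorem facts (hSf : Sf μ i a) (hB : IsB μ i b) : (∀ φ, Fm a (b φ)) ∧
      (∀ φ : C(M, ℝ), 0 < ∫ x, Real.exp (φ x) ∂μ) ∧
      (∀ (φ ψ : C(M, ℝ)) (v : H), b φ v v ≤ Real.exp ‖φ - ψ‖ * b ψ v v) ∧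
      ∀ h : C(M, ℝ), ∃ k : C(M, ℝ) → H →L[ℝ] H →L[ℝ] ℝ, (∀ φ u v, k φ u v = k φ v u) ∧
        (∀ φ v, k φ v v = kap μ i h φ v ∧ |k φ v v| ≤ ‖h‖ * b φ v v) ∧
        ∀ φ v (τ : ℝ), b φ v v + τ * k φ v v ≤ b (φ + τ • h) v v := by
  obtain ⟨b0, hB0, hF, hA, hexp, hk⟩ := Pool.Agent.Y419.QR.fm M μ H i a hSf
  have hbb : b0 = b := by
    funext ψ
    ext u v
    rw [hB0, hB]
  subst hbb
  exact ⟨hF, hA, hexp, hk⟩

theorem oneV (hSf : Sf μ i a) (hB : IsB μ i b) (hW : Wl μ a b)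
    (hex : ∀ φ, ∃ (e : ℕ → H) (E : ℕ → ℝ), Eg a (b φ) e E) (φ h : C(M, ℝ)) (v : ℝ → ℕ → H)
    (hv : ∀ t j, UE a (b (φ + t • h)) (Ev a (b (φ + t • h)) j) (v t j)) :
    (∀ᵐ t : ℝ, ∀ j, HasDerivAt (fun s : ℝ => Ev a (b (φ + s • h)) j)
      (-(kap μ i h (φ + t • h) (v t j) * Ev a (b (φ + t • h)) j)) t) ∧
    (∃ J : ℕ, ∀ j, J ≤ j → (∀ᵐ t : ℝ, |kap μ i h (φ + t • h) (v t j)| ≤ ‖h‖) ∧
      AEMeasurable (fun t : ℝ => kap μ i h (φ + t • h) (v t j)) volume) ∧
    ∀ χ : ℝ → ℝ, Integrable χ volume →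
      Tendsto (fun j => ∫ t, χ t * kap μ i h (φ + t • h) (v t j)) atTop
        (𝓝 (∫ t, χ t * avg μ h (φ + t • h))) := by
  obtain ⟨hF, hA, hexp, hk⟩ := facts μ i a b hSf hB
  obtain ⟨k, ksym, k1, k2⟩ := hk h
  obtain ⟨l1, l2, l3, -, l5⟩ := Pool.Agent.Y390.QR.LIP.lip M μ H a b hF hexp
  have hLp : ∀ (j : ℕ) (s t : ℝ), Ev a (b (φ + s • h)) j ≤
      Real.exp (‖h‖ * |s - t|) * Ev a (b (φ + t • h)) j := by
    intro j s t
    have h1 := l3 (φ + s • h) (φ + t • h) j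
    have e1 : ‖(φ + s • h) - (φ + t • h)‖ = ‖h‖ * |s - t| := by
      rw [add_sub_add_left_eq_sub, ← sub_smul, norm_smul, Real.norm_eq_abs, mul_comm]
    rw [e1] at h1
    exact h1
  have c1 := Pool.Agent.Y147.QR.stAE (fun j t => Ev a (b (φ + t • h)) j)
    (fun j t => kap μ i h (φ + t • h) (v t j)) ‖h‖ (fun j t => l1 _ _)
    (fun i' j t hij => l2 _ _ _ hij) hLp (by
      intro i' j t hij hl ε hε
      obtain ⟨e, E, hE⟩ := hex (φ + t • h)
      have hmm : ∀ j, Ev a (b (φ + t • h)) j = E j := fun j =>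
        Pool.Agent.Y592.QE.mm H a (b (φ + t • h)) (hF _) e E hE j
      have hl' : ∀ l, l < i' → E l < E i' := by
        intro l hli
        rw [← hmm, ← hmm]
        exact hl l hli
      have hvj : UE a (b (φ + t • h)) (E i') (v t j) := by
        have h1 := hv t j
        have hij' : Ev a (b (φ + t • h)) i' = Ev a (b (φ + t • h)) j := hij
        rw [← hij', hmm] at h1
        exact h1
      obtain ⟨δ, hδ, h1⟩ := der0' a (b (φ + t • h)) (hF _) e E hE
        (k (φ + t • h)) ‖h‖ (ksym _) (fun v => (k1 _ v).2) i' (v t j) hvj hl' ε hε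
      refine ⟨δ, hδ, fun τ hτ => ?_⟩
      have h2 := h1 τ hτ (b (φ + (t + τ) • h)) (by
        intro v
        have h3 := k2 (φ + t • h) v τ
        have e1 : φ + t • h + τ • h = φ + (t + τ) • h := by rw [add_smul, add_assoc]
        rw [e1] at h3
        exact h3)
      rw [(k1 _ _).1, ← hmm] at h2
      exact h2)
  -- positivity
  obtain ⟨J, hJ⟩ : ∃ J : ℕ, ∀ j, J ≤ j → ∀ ψ, 0 < Ev a (b ψ) j := by
    have h1 := hW φ
    have h2 : (0 : ℝ) < 4 * π / ∫ x, Real.exp (φ x) ∂μ :=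
      div_pos (by positivity) (hA φ)
    obtain ⟨J, hJ⟩ := eventually_atTop.1 (h1.eventually (lt_mem_nhds h2))
    refine ⟨J, fun j hj => ?_⟩
    rcases l5 j with h3 | h3
    · exfalso
      have h4 := hJ j hj
      rw [h3 φ, zero_div] at h4
      exact lt_irrefl _ h4
    · exact h3
  have hftc : ∀ j, J ≤ j →
      (∀ᵐ t : ℝ, |kap μ i h (φ + t • h) (v t j)| ≤ ‖h‖) ∧
      AEMeasurable (fun t : ℝ => kap μ i h (φ + t • h) (v t j)) volume ∧
      ∀ α β : ℝ, α ≤ β → ∫ t in α..β, kap μ i h (φ + t • h) (v t j) =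
        Real.log (Ev a (b (φ + α • h)) j) - Real.log (Ev a (b (φ + β • h)) j) := by
    intro j hj
    exact Pool.Agent.Y147.QR.stFTC (fun t => Ev a (b (φ + t • h)) j)
      (fun t => kap μ i h (φ + t • h) (v t j)) ‖h‖
      (fun t => hJ j hj _) (hLp j) (c1.mono fun t ht => ht j)
  refine ⟨c1, ⟨J, fun j hj => ⟨(hftc j hj).1, (hftc j hj).2.1⟩⟩, fun χ hχ => ?_⟩
  have h1 := Pool.Agent.Y401.QR.t_Dens (fun j t => kap μ i h (φ + t • h) (v t (j + J)))
    (fun t => avg μ h (φ + t • h)) ‖h‖ (fun j => (hftc (j + J) (by omega)).2.1)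
    (avg_cont μ hA φ h).measurable.aemeasurable (fun j => (hftc (j + J) (by omega)).1)
    (ae_of_all _ fun t => avg_le μ hA _ h) (by
      intro α β hαβ
      have hlog : ∀ t : ℝ, Tendsto
          (fun j : ℕ => Real.log (Ev a (b (φ + t • h)) (j + J) / (((j + J : ℕ) : ℝ) + 1))) atTop
          (𝓝 (Real.log (4 * π / ∫ x, Real.exp ((φ + t • h) x) ∂μ))) := by
        intro t
        have h2 := (tendsto_add_atTop_iff_nat J).2 (hW (φ + t • h))
        exact h2.log (div_pos (by positivity) (hA _)).ne'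
      have h3 := (hlog α).sub (hlog β)
      have e1 : Real.log (4 * π / ∫ x, Real.exp ((φ + α • h) x) ∂μ) -
          Real.log (4 * π / ∫ x, Real.exp ((φ + β • h) x) ∂μ) =
          ∫ t in α..β, avg μ h (φ + t • h) := by
        rw [avg_int μ hA, Real.log_div (by positivity) (hA _).ne',
          Real.log_div (by positivity) (hA _).ne']
        ring
      rw [e1] at h3
      refine h3.congr fun j => ?_
      rw [(hftc (j + J) (by omega)).2.2 α β hαβ]
      have hj : ((j + J : ℕ) : ℝ) + 1 ≠ 0 := by positivity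
      rw [Real.log_div (hJ (j + J) (by omega) _).ne' hj,
        Real.log_div (hJ (j + J) (by omega) _).ne' hj]
      ring) χ hχ
  exact (tendsto_add_atTop_iff_nat (f := fun j => ∫ t, χ t * kap μ i h (φ + t • h) (v t j)) J).1 h1

end Pool.Agent.Q205.QLim
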