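import Pool.Agent.Q205.QLim.One
import Pool.Agent.Y363.QE.Bs

/-!
# Eigenvectors of nearby metrics
-/

set_option autoImplicit false

open Set Filter Topology MeasureTheory
open scoped Real ContDiff

noncomputable section

namespace Pool.Agent.Q205.QLim

open Pool.Agent.Y262.QE Pool.Agent.Y264.QR Pool.Agent.Y363.QE

section bil

variable {H : Type} [NormedAddCommGroup H] [InnerProductSpace ℝ H]

theorem cross {k b : H →L[ℝ] H →L[ℝ] ℝ} {K : ℝ} (ksym : ∀ u v, k u v = k v u)
    (bsym : ∀ u v, b u v = b v u) (hk : ∀ v, |k v v| ≤ K * b v v) (u v : H) :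
    |k u v| ≤ K * (b u u + b v v) / 2 := by
  have p1 := hk (u + v)
  have p2 := hk (u - v)
  have q1 : k (u + v) (u + v) = k u u + 2 * k u v + k v v := by
    simp only [map_add, add_apply]
    rw [ksym v u]; ring
  have q2 : k (u - v) (u - v) = k u u - 2 * k u v + k v v := by
    simp only [map_sub, sub_apply]
    rw [ksym v u]; ring
  have r1 : b (u + v) (u + v) = b u u + 2 * b u v + b v v := by
    simp only [map_add, add_apply]
    rw [bsym v u]; ring
  have r2 : b (u - v) (u - v) = b u u - 2 * b u v + b v v := by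
    simp only [map_sub, sub_apply]
    rw [bsym v u]; ring
  rw [q1, r1] at p1
  rw [q2, r2] at p2
  obtain ⟨u1, u2⟩ := abs_le.1 p1
  obtain ⟨w1, w2⟩ := abs_le.1 p2
  rw [abs_le]
  constructor <;> linarith

theorem cross2 {k b : H →L[ℝ] H →L[ℝ] ℝ} {K : ℝ} (ksym : ∀ u v, k u v = k v u)
    (bsym : ∀ u v, b u v = b v u) (hk : ∀ v, |k v v| ≤ K * b v v) {T : ℝ} (hT : 0 < T) (u v : H) :
    |k u v| ≤ K * (T * b u u + b v v / T) / 2 := by
  have h := cross ksym bsym hk (√T • u) ((√T)⁻¹ • v)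
  have hs : √T ≠ 0 := (Real.sqrt_pos.2 hT).ne'
  have e1 : k (√T • u) ((√T)⁻¹ • v) = k u v := by
    simp only [map_smul, smul_apply, smul_eq_mul]
    field_simp
  have e2 : b (√T • u) (√T • u) = T * b u u := by
    simp only [map_smul, smul_apply, smul_eq_mul]
    rw [← mul_assoc, Real.mul_self_sqrt hT.le]
  have e3 : b ((√T)⁻¹ • v) ((√T)⁻¹ • v) = b v v / T := by
    simp only [map_smul, smul_apply, smul_eq_mul]
    rw [← mul_assoc, ← mul_inv, Real.mul_self_sqrt hT.le]
    ring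
  rw [e1, e2, e3] at h
  exact h

theorem bsum_right (b : H →L[ℝ] H →L[ℝ] ℝ) (e : ℕ → H) (c : ℕ → ℝ) (S : Finset ℕ) (w : H) :
    b w (∑ l ∈ S, c l • e l) = ∑ l ∈ S, c l * b w (e l) := by
  rw [map_sum]
  exact Finset.sum_congr rfl fun l _ => by rw [map_smul, smul_eq_mul]

theorem bsum_left (b : H →L[ℝ] H →L[ℝ] ℝ) (e : ℕ → H) (c : ℕ → ℝ) (S : Finset ℕ) (w : H) :
    b (∑ l ∈ S, c l • e l) w = ∑ l ∈ S, c l * b (e l) w := by
  rw [map_sum, ContinuousLinearMap.sum_apply]
  exact Finset.sum_congr rfl fun l _ => by rw [map_smul, ContinuousLinearMap.smul_apply, smul_eq_mul]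

theorem bsum_coef {b : H →L[ℝ] H →L[ℝ] ℝ} {e : ℕ → H}
    (he : ∀ i j, b (e i) (e j) = if i = j then 1 else 0) (c : ℕ → ℝ) (S : Finset ℕ) (l : ℕ) :
    b (∑ m ∈ S, c m • e m) (e l) = if l ∈ S then c l else 0 := by
  rw [bsum_left]
  simp only [he, mul_ite, mul_one, mul_zero]
  simp

theorem bsum_self {b : H →L[ℝ] H →L[ℝ] ℝ} {e : ℕ → H}
    (he : ∀ i j, b (e i) (e j) = if i = j then 1 else 0) (c : ℕ → ℝ) (S : Finset ℕ) :
    b (∑ m ∈ S, c m • e m) (∑ m ∈ S, c m • e m) = ∑ m ∈ S, c m ^ 2 := by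
  rw [bsum_right]
  refine Finset.sum_congr rfl fun l hl => ?_
  rw [bsum_coef he, if_pos hl, sq]

/-- an eigenvector of a nearby pair of forms is close to an eigenvector -/
theorem pert_core {a b : H →L[ℝ] H →L[ℝ] ℝ} (hF : Fm a b) {e : ℕ → H}
    {E : ℕ → ℝ} (hE : Eg a b e E) (j : ℕ) {η : ℝ} (hη : 0 < η) :
    ∃ ε₀ : ℝ, 0 < ε₀ ∧ ∀ (b' : H →L[ℝ] H →L[ℝ] ℝ) (ε E' : ℝ), (∀ u v, b' u v = b' v u) →
      0 ≤ ε → ε ≤ ε₀ → (∀ v, |b' v v - b v v| ≤ ε * b v v) → 0 ≤ E' → |E' - E j| ≤ ε₀ →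
      ∀ w, UE a b' E' w → ∃ v, UE a b (E j) v ∧ b (v - w) (v - w) ≤ η ∧ b w w ≤ 2 := by
  classical
  set lam := E j with hlam
  have hlam0 : 0 ≤ lam := by
    have h1 := hF.na (e j)
    rw [hE.eig, hE.orth, if_pos rfl, mul_one] at h1
    exact h1
  -- the cluster and the gap
  obtain ⟨N, hN⟩ := eventually_atTop.1 (hE.tt.eventually (eventually_ge_atTop (lam + 1)))
  set C : Finset ℕ := (Finset.range N).filter fun l => E l = lam with hC
  obtain ⟨g0, hg0, hgap0⟩ := Pool.Agent.Y726.QE.exists_gap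
    ((Finset.range N).filter fun l => E l ≠ lam) (fun l => |E l - lam|) (fun l hl => by
      have := (Finset.mem_filter.1 hl).2
      exact abs_pos.2 (sub_ne_zero.2 this))
  set g : ℝ := min g0 1 with hg
  have hgpos : 0 < g := lt_min hg0 one_pos
  have hgap : ∀ l, l ∉ C → g ≤ |E l - lam| := by
    intro l hl
    by_cases hlN : l < N
    · have hne : E l ≠ lam := by
        intro h
        exact hl (Finset.mem_filter.2 ⟨Finset.mem_range.2 hlN, h⟩)
      exact (min_le_left _ _).trans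
        (hgap0 l (Finset.mem_filter.2 ⟨Finset.mem_range.2 hlN, hne⟩))
    · have h1 := hN l (not_lt.1 hlN)
      refine (min_le_right _ _).trans ?_
      rw [abs_of_nonneg (by linarith)]
      linarith
  have hCE : ∀ l ∈ C, E l = lam := fun l hl => (Finset.mem_filter.1 hl).2
  set κ : ℝ := min (1 / 4) (η / 2) with hκ
  have hκpos : 0 < κ := lt_min (by norm_num) (by positivity)
  have hκ4 : κ ≤ 1 / 4 := min_le_left _ _
  have hκη : κ ≤ η / 2 := min_le_right _ _
  refine ⟨min (min κ (g / 2)) (κ * g / (4 * (lam + 1))), ?_, ?_⟩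
  · refine lt_min (lt_min hκpos (by positivity)) (by positivity)
  intro b' ε E' hb'sym hε0 hε hclose hE'0 hE' w hw
  obtain ⟨hw1, hwE⟩ := hw
  have hε1 : ε ≤ κ := hε.trans ((min_le_left _ _).trans (min_le_left _ _))
  have hε3 : ε * (4 * (lam + 1)) ≤ κ * g := by
    have := hε.trans (min_le_right _ _)
    rwa [le_div_iff₀ (by positivity)] at this
  have hE'g : |E' - lam| ≤ g / 2 := hE'.trans ((min_le_left _ _).trans (min_le_right _ _))
  have hE'l : E' ≤ lam + 1 := by
    have h1 := (abs_le.1 hE'g).2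
    have h2 : g ≤ 1 := min_le_right _ _
    linarith
  -- the norm of w
  have hc0 := hclose w
  rw [hw1] at hc0
  obtain ⟨hc1, hc2⟩ := abs_le.1 hc0
  have hbw0 : 0 ≤ b w w := hF.nb w
  have hbwup : b w w ≤ 1 + 2 * κ := by nlinarith
  have hbwlow : 1 - κ ≤ b w w := by nlinarith
  have hbw2 : b w w ≤ 2 := by linarith
  set c : H →L[ℝ] H →L[ℝ] ℝ := b' - b with hc
  have hcsym : ∀ u v, c u v = c v u := by
    intro u v
    simp only [hc, sub_apply]
    rw [hb'sym u v, hF.sb u v]
  have hck : ∀ v, |c v v| ≤ ε * b v v := by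
    intro v
    simp only [hc, sub_apply]
    exact hclose v
  -- coefficients
  set β : ℕ → ℝ := fun l => b w (e l) with hβ
  set p : H := ∑ l ∈ C, β l • e l with hp
  set r : H := w - p with hr
  set γ : ℕ → ℝ := fun l => b r (e l) with hγ
  have hγeq : ∀ l, γ l = β l - if l ∈ C then β l else 0 := by
    intro l
    simp only [hγ, hr, map_sub, sub_apply]
    rw [hp, bsum_coef hE.orth]
  have hγC : ∀ l ∈ C, γ l = 0 := fun l hl => by rw [hγeq, if_pos hl, sub_self]
  have hγN : ∀ l, l ∉ C → γ l = β l := fun l hl => by rw [hγeq, if_neg hl, sub_zero]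
  have hβsum : ∀ S : Finset ℕ, ∑ l ∈ S, β l ^ 2 ≤ b w w := fun S =>
    sum_le_hasSum S (fun _ _ => sq_nonneg _) (hE.sum w)
  have hγβ : ∀ l, γ l ^ 2 ≤ β l ^ 2 := by
    intro l
    by_cases hl : l ∈ C
    · rw [hγC l hl, zero_pow two_ne_zero]; exact sq_nonneg _
    · rw [hγN l hl]
  have hfin : ∀ S : Finset ℕ, ∑ l ∈ S, γ l ^ 2 ≤ κ := by
    intro S
    set σ : ℕ → ℝ := fun l => if E' ≤ E l then 1 else -1 with hσ
    have hσ2 : ∀ l, σ l ^ 2 = 1 := by
      intro l; simp only [hσ]; split_ifs <;> norm_num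
    set x : H := ∑ l ∈ S, (σ l * γ l) • e l with hx
    have hxx : b x x = ∑ l ∈ S, γ l ^ 2 := by
      rw [hx, bsum_self hE.orth]
      refine Finset.sum_congr rfl fun l _ => ?_
      rw [mul_pow, hσ2, one_mul]
    have hax : a w x = ∑ l ∈ S, (σ l * γ l) * (E l * β l) := by
      rw [hx, bsum_right]
      refine Finset.sum_congr rfl fun l _ => ?_
      rw [hF.sa w (e l), hE.eig, hF.sb (e l) w]
    have hbx : b w x = ∑ l ∈ S, (σ l * γ l) * β l := by
      rw [hx, bsum_right]
    have hmain : ∑ l ∈ S, (σ l * γ l) * ((E l - E') * β l) = E' * c w x := by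
      have h1 := hwE x
      have h2 : b' w x = b w x + c w x := by simp only [hc, sub_apply]; ring
      rw [hax, h2, hbx, mul_add, Finset.mul_sum] at h1
      have h3 : ∑ l ∈ S, (σ l * γ l) * ((E l - E') * β l) =
          ∑ l ∈ S, (σ l * γ l) * (E l * β l) - ∑ l ∈ S, E' * ((σ l * γ l) * β l) := by
        rw [← Finset.sum_sub_distrib]
        exact Finset.sum_congr rfl fun l _ => by ring
      rw [h3, h1]
      ring
    have hterm : ∀ l ∈ S, g / 2 * γ l ^ 2 ≤ (σ l * γ l) * ((E l - E') * β l) := by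
      intro l _
      by_cases hl : l ∈ C
      · rw [hγC l hl]; simp
      · rw [hγN l hl]
        have h1 : σ l * (E l - E') = |E l - E'| := by
          simp only [hσ]
          split_ifs with h
          · rw [abs_of_nonneg (by linarith)]; ring
          · rw [abs_of_neg (by linarith)]; ring
        have h2 : g / 2 ≤ |E l - E'| := by
          have h3 := hgap l hl
          have h4 : |E l - lam| ≤ |E l - E'| + |E' - lam| := abs_sub_le _ _ _
          linarith
        calc g / 2 * β l ^ 2 ≤ |E l - E'| * β l ^ 2 :=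
              mul_le_mul_of_nonneg_right h2 (sq_nonneg _)
          _ = _ := by rw [← h1]; ring
    have hsum : g / 2 * ∑ l ∈ S, γ l ^ 2 ≤ E' * c w x := by
      rw [← hmain, Finset.mul_sum]
      exact Finset.sum_le_sum hterm
    have hcx : |c w x| ≤ ε * 2 := by
      have h1 := cross hcsym hF.sb hck w x
      have h2 : b x x ≤ b w w := by
        rw [hxx]
        exact (Finset.sum_le_sum fun l _ => hγβ l).trans (hβsum S)
      refine h1.trans ?_
      have : ε * (b w w + b x x) ≤ ε * (2 + 2) :=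
        mul_le_mul_of_nonneg_left (by linarith) hε0
      linarith
    have h5 : E' * c w x ≤ (lam + 1) * (ε * 2) := by
      calc E' * c w x ≤ E' * |c w x| := mul_le_mul_of_nonneg_left (le_abs_self _) hE'0
        _ ≤ (lam + 1) * (ε * 2) := mul_le_mul hE'l hcx (abs_nonneg _) (by linarith)
    have h6 : g / 2 * ∑ l ∈ S, γ l ^ 2 ≤ g / 2 * κ := by linarith
    exact le_of_mul_le_mul_left h6 (by positivity)
  have hrr : b r r ≤ κ := hasSum_le_of_sum_le (hE.sum r) hfin
  have hrr0 : 0 ≤ b r r := hF.nb r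
  have hpr : b p r = 0 := by
    rw [hp, bsum_left]
    refine Finset.sum_eq_zero fun l hl => ?_
    rw [hF.sb (e l) r]
    show β l * γ l = 0
    rw [hγC l hl, mul_zero]
  have hwpr : w = p + r := by rw [hr]; abel
  have hbw : b w w = b p p + b r r := by
    rw [hwpr]
    simp only [map_add, add_apply]
    rw [hF.sb r p, hpr]
    ring
  set n := b p p with hn
  have hn1 : 1 - 2 * κ ≤ n := by linarith
  have hn2 : n ≤ 1 + 2 * κ := by linarith
  have hnpos : 0 < n := by linarith
  have hs := Real.sqrt_pos.2 hnpos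
  have hpE : ∀ z, a p z = lam * b p z := by
    intro z
    rw [hp, bsum_left, bsum_left, Finset.mul_sum]
    refine Finset.sum_congr rfl fun l hl => ?_
    rw [hE.eig, hCE l hl]
    ring
  refine ⟨(√n)⁻¹ • p, ⟨?_, ?_⟩, ?_, hbw2⟩
  · simp only [map_smul, smul_apply, smul_eq_mul]
    rw [← mul_assoc, ← mul_inv, Real.mul_self_sqrt hnpos.le, ← hn, inv_mul_cancel₀ hnpos.ne']
  · intro z
    simp only [map_smul, smul_apply, smul_eq_mul]
    rw [hpE]
    ring
  · have e1 : (√n)⁻¹ • p - w = ((√n)⁻¹ - 1) • p - r := by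
      rw [sub_smul, one_smul, hr]; abel
    have e2 : b (((√n)⁻¹ - 1) • p - r) (((√n)⁻¹ - 1) • p - r) =
        ((√n)⁻¹ - 1) ^ 2 * n + b r r := by
      simp only [map_sub, sub_apply, map_smul, smul_apply, smul_eq_mul]
      rw [hF.sb r p, hpr]
      ring
    rw [e1, e2]
    have e3 : ((√n)⁻¹ - 1) ^ 2 * n = (1 - √n) ^ 2 := by
      have hsq : √n * √n = n := Real.mul_self_sqrt hnpos.le
      have hs' : √n ≠ 0 := hs.ne'
      calc ((√n)⁻¹ - 1) ^ 2 * n = ((√n)⁻¹ - 1) ^ 2 * (√n * √n) := by rw [hsq]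
        _ = (((√n)⁻¹ - 1) * √n) ^ 2 := by ring
        _ = _ := by rw [sub_mul, inv_mul_cancel₀ hs', one_mul]
    rw [e3]
    have h7 : (1 - √n) ^ 2 ≤ (2 * κ) ^ 2 := by
      have h8 : |1 - √n| ≤ |1 - n| := by
        have h9 : 1 - n = (1 - √n) * (1 + √n) := by
          have hsq : √n * √n = n := Real.mul_self_sqrt hnpos.le
          ring_nf
          rw [Real.sq_sqrt hnpos.le]
        rw [h9, abs_mul, abs_of_pos (by linarith : 0 < 1 + √n)]
        exact le_mul_of_one_le_right (abs_nonneg _) (by linarith)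
      have h10 : |1 - n| ≤ 2 * κ := by rw [abs_le]; constructor <;> linarith
      rw [← sq_abs]
      exact pow_le_pow_left₀ (abs_nonneg _) (h8.trans h10) 2
    have h11 : (2 * κ) ^ 2 + κ ≤ η := by nlinarith
    linarith

end bil

section kap

variable {M : Type} [MetricSpace M] [CompactSpace M] [MeasurableSpace M] [BorelSpace M]
  (μ : Measure M) [IsFiniteMeasure μ] {H : Type} [NormedAddCommGroup H] [InnerProductSpace ℝ H]
  (i : H →L[ℝ] Lp ℝ 2 μ) (a : H →L[ℝ] H →L[ℝ] ℝ) (b : C(M, ℝ) → H →L[ℝ] H →L[ℝ] ℝ)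

theorem kap_form (f φ : C(M, ℝ)) (v : H) :
    kap μ i f φ v = ∫ x, f x * Real.exp (φ x) * (i v x * i v x) ∂μ := by
  unfold kap
  refine integral_congr_ae (Eventually.of_forall fun x => ?_)
  simp only
  ring

theorem abs_le_norm' (f : C(M, ℝ)) (x : M) : |f x| ≤ ‖f‖ := by
  rw [← Real.norm_eq_abs]; exact f.norm_coe_le_norm x

theorem wbd (f φ : C(M, ℝ)) (x : M) : |f x * Real.exp (φ x)| ≤ ‖f‖ * Real.exp ‖φ‖ := by
  rw [abs_mul, Real.abs_exp]
  exact mul_le_mul (abs_le_norm' f x)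
    (Real.exp_le_exp.2 ((le_abs_self _).trans (abs_le_norm' φ x))) (Real.exp_pos _).le
    (norm_nonneg _)

theorem wmeas (f φ : C(M, ℝ)) : Measurable fun x => f x * Real.exp (φ x) :=
  f.continuous.measurable.mul (Real.continuous_exp.comp φ.continuous).measurable

/-- dependence of the mass of `f` on `f` -/
theorem kap_sub_left (hB : IsB μ i b) (f f' φ : C(M, ℝ)) (v : H) :
    |kap μ i f φ v - kap μ i f' φ v| ≤ ‖f - f'‖ * b φ v v := by
  have key : ∀ f f' : C(M, ℝ), kap μ i f φ v ≤ kap μ i f' φ v + ‖f - f'‖ * b φ v v := by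
    intro f f'
    have e1 : kap μ i f' φ v + ‖f - f'‖ * b φ v v =
        ∫ x, (f' x + ‖f - f'‖) * Real.exp (φ x) * (i v x * i v x) ∂μ := by
      rw [kap_form, hB, ← integral_const_mul, ← integral_add]
      · refine integral_congr_ae (Eventually.of_forall fun x => ?_)
        simp only
        ring
      · exact int_w (wmeas f' φ) (wbd f' φ) (i v)
      · have h1 := int_w (μ := μ) (w := fun x => ‖f - f'‖ * Real.exp (φ x))
          (measurable_const.mul (Real.continuous_exp.comp φ.continuous).measurable)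
          (C := ‖f - f'‖ * Real.exp ‖φ‖) (fun x => by
            rw [abs_mul, abs_of_nonneg (norm_nonneg _), Real.abs_exp]
            exact mul_le_mul_of_nonneg_left
              (Real.exp_le_exp.2 ((le_abs_self _).trans (abs_le_norm' φ x))) (norm_nonneg _)) (i v)
        refine h1.congr (Eventually.of_forall fun x => ?_)
        simp only
        ring
    rw [e1, kap_form]
    have h1 := mono_w (μ := μ) (w := fun x => f x * Real.exp (φ x))
      (w' := fun x => (f' + ContinuousMap.const M ‖f - f'‖) x * Real.exp (φ x)) (wmeas f φ)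
      (wbd f φ) (wmeas _ φ) (wbd _ φ) (fun x => by
        refine mul_le_mul_of_nonneg_right ?_ (Real.exp_pos _).le
        have h2 := (le_abs_self _).trans (abs_le_norm' (f - f') x)
        simp only [ContinuousMap.sub_apply] at h2
        simp only [ContinuousMap.add_apply, ContinuousMap.const_apply]
        linarith) (i v)
    simpa using h1
  rw [abs_le]
  have h1 := key f f'
  have h2 := key f' f
  rw [norm_sub_rev] at h2
  constructor <;> linarith

/-- dependence on the metric -/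
theorem kap_sub_right (hB : IsB μ i b) (f φ ψ : C(M, ℝ)) (v : H) :
    |kap μ i f ψ v - kap μ i f φ v| ≤ ‖f‖ * ((Real.exp ‖ψ - φ‖ - 1) * b φ v v) := by
  set d := Real.exp ‖ψ - φ‖ - 1 with hd
  have hpt : ∀ x, |Real.exp (ψ x) - Real.exp (φ x)| ≤ d * Real.exp (φ x) := by
    intro x
    have h1 := abs_le_norm' (ψ - φ) x
    simp only [ContinuousMap.sub_apply] at h1
    have h2 : Real.exp (ψ x) - Real.exp (φ x) = (Real.exp (ψ x - φ x) - 1) * Real.exp (φ x) := by
      rw [sub_mul, ← Real.exp_add, one_mul, sub_add_cancel]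
    rw [h2, abs_mul, Real.abs_exp]
    refine mul_le_mul_of_nonneg_right ?_ (Real.exp_pos _).le
    rw [abs_le] at h1 ⊢
    have h3 : Real.exp (ψ x - φ x) ≤ Real.exp ‖ψ - φ‖ := Real.exp_le_exp.2 h1.2
    have h4 : Real.exp (-‖ψ - φ‖) ≤ Real.exp (ψ x - φ x) := Real.exp_le_exp.2 h1.1
    have h5 : 2 ≤ Real.exp ‖ψ - φ‖ + Real.exp (-‖ψ - φ‖) := by
      have := Real.add_one_le_exp ‖ψ - φ‖
      have h6 := Real.add_one_le_exp (-‖ψ - φ‖)
      linarith
    constructor <;> linarith
  have key : ∀ s : ℝ, |s| = 1 → s * (kap μ i f ψ v - kap μ i f φ v) ≤ ‖f‖ * (d * b φ v v) := by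
    intro s hs
    have e1 : s * (kap μ i f ψ v - kap μ i f φ v) =
        ∫ x, (s * (f x * Real.exp (ψ x)) - s * (f x * Real.exp (φ x))) * (i v x * i v x) ∂μ := by
      rw [kap_form, kap_form, ← integral_sub (int_w (wmeas f ψ) (wbd f ψ) (i v))
        (int_w (wmeas f φ) (wbd f φ) (i v)), ← integral_const_mul]
      refine integral_congr_ae (Eventually.of_forall fun x => ?_)
      simp only
      ring
    have e2 : ‖f‖ * (d * b φ v v) = ∫ x, (‖f‖ * d * Real.exp (φ x)) * (i v x * i v x) ∂μ := by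
      rw [hB, ← integral_const_mul, ← integral_const_mul]
      refine integral_congr_ae (Eventually.of_forall fun x => ?_)
      simp only
      ring
    rw [e1, e2]
    have hd0 : 0 ≤ d := by
      rw [hd]; have := Real.add_one_le_exp ‖ψ - φ‖; have := norm_nonneg (ψ - φ); linarith
    refine mono_w (((wmeas f ψ).const_mul s).sub ((wmeas f φ).const_mul s))
      (C := ‖f‖ * Real.exp ‖ψ‖ + ‖f‖ * Real.exp ‖φ‖) ?_
      (measurable_const.mul (Real.continuous_exp.comp φ.continuous).measurable)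
      (C' := ‖f‖ * d * Real.exp ‖φ‖) ?_ ?_ (i v)
    · intro x
      have h1 := wbd f ψ x
      have h2 := wbd f φ x
      calc |s * (f x * Real.exp (ψ x)) - s * (f x * Real.exp (φ x))|
          ≤ |s * (f x * Real.exp (ψ x))| + |s * (f x * Real.exp (φ x))| := abs_sub _ _
        _ ≤ _ := by rw [abs_mul s, abs_mul s, hs, one_mul, one_mul]; exact add_le_add h1 h2
    · intro x
      show |‖f‖ * d * Real.exp (φ x)| ≤ ‖f‖ * d * Real.exp ‖φ‖
      rw [abs_mul, Real.abs_exp, abs_of_nonneg (mul_nonneg (norm_nonneg _) hd0)]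
      exact mul_le_mul_of_nonneg_left
        (Real.exp_le_exp.2 ((le_abs_self _).trans (abs_le_norm' φ x)))
        (mul_nonneg (norm_nonneg _) hd0)
    · intro x
      show s * (f x * Real.exp (ψ x)) - s * (f x * Real.exp (φ x)) ≤ ‖f‖ * d * Real.exp (φ x)
      have h1 : s * (f x * Real.exp (ψ x)) - s * (f x * Real.exp (φ x)) =
          s * f x * (Real.exp (ψ x) - Real.exp (φ x)) := by ring
      rw [h1]
      refine (le_abs_self _).trans ?_
      rw [abs_mul, abs_mul, hs, one_mul, mul_assoc]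
      exact mul_le_mul (abs_le_norm' f x) (hpt x) (abs_nonneg _) (norm_nonneg _)
  rw [abs_le]
  have h1 := key 1 (by simp)
  have h2 := key (-1) (by simp)
  constructor <;> linarith

/-- for metrics near `φ` the masses of the unit eigenvectors of the `j`-th eigenvalue are close to
the mass of a unit eigenvector for `φ` -/
theorem pert (hSf : Sf μ i a) (hB : IsB μ i b)
    (hex : ∀ φ, ∃ (e : ℕ → H) (E : ℕ → ℝ), Eg a (b φ) e E) (φ : C(M, ℝ)) (j : ℕ)
    (h : C(M, ℝ)) {η : ℝ} (hη : 0 < η) :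
    ∃ δ : ℝ, 0 < δ ∧ ∀ ψ : C(M, ℝ), ‖ψ - φ‖ < δ → ∀ w, UE a (b ψ) (Ev a (b ψ) j) w →
      ∃ v, UE a (b φ) (Ev a (b φ) j) v ∧ |kap μ i h φ v - kap μ i h ψ w| ≤ η := by
  obtain ⟨hF, hA, hexp, hk⟩ := facts μ i a b hSf hB
  obtain ⟨k, ksym, k1, -⟩ := hk h
  obtain ⟨l1, l2, l3, l4, l5⟩ := Pool.Agent.Y390.QR.LIP.lip M μ H a b hF hexp
  obtain ⟨e, E, hE⟩ := hex φ
  have hmm : Ev a (b φ) j = E j := Pool.Agent.Y592.QE.mm H a (b φ) (hF _) e E hE j
  set K : ℝ := ‖h‖ + 1 with hK
  have hKpos : 0 < K := by positivity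
  -- the parameters
  set T : ℝ := 16 * K / η with hT
  have hTpos : 0 < T := by positivity
  set η' : ℝ := min (η / (4 * K)) (η / (4 * (K * T))) with hη'
  have hη'pos : 0 < η' := lt_min (by positivity) (by positivity)
  obtain ⟨ε₀, hε₀, hcore⟩ := pert_core (hF φ) hE j hη'pos
  set ε₁ : ℝ := min ε₀ (η / (8 * K)) with hε₁
  have hε₁pos : 0 < ε₁ := lt_min hε₀ (by positivity)
  obtain ⟨δ₁, hδ₁, hcont⟩ := Metric.continuousAt_iff.1 ((l4 j).continuousAt (x := φ)) ε₀ hε₀
  refine ⟨min δ₁ (Real.log (1 + ε₁)), lt_min hδ₁ (Real.log_pos (by linarith)), ?_⟩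
  intro ψ hψ w hw
  set d : ℝ := Real.exp ‖ψ - φ‖ - 1 with hd
  have hd0 : 0 ≤ d := by
    rw [hd]; have := Real.add_one_le_exp ‖ψ - φ‖; have := norm_nonneg (ψ - φ); linarith
  have hdε : d ≤ ε₁ := by
    have h1 : ‖ψ - φ‖ < Real.log (1 + ε₁) := lt_of_lt_of_le hψ (min_le_right _ _)
    have h2 : Real.exp ‖ψ - φ‖ < 1 + ε₁ := by
      rw [← Real.exp_log (by linarith : 0 < 1 + ε₁)]
      exact Real.exp_lt_exp.2 h1
    rw [hd]; linarith
  have hclose : ∀ v, |b ψ v v - b φ v v| ≤ d * b φ v v := by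
    intro v
    have h1 := hexp ψ φ v
    have h2 := hexp φ ψ v
    rw [norm_sub_rev] at h2
    have h3 : Real.exp ‖ψ - φ‖ = 1 + d := by rw [hd]; ring
    rw [h3] at h1 h2
    have h4 : 0 ≤ b φ v v := (hF φ).nb v
    have h5 : 0 ≤ b ψ v v := (hF ψ).nb v
    rw [abs_le]
    constructor
    · by_contra hcon
      push_neg at hcon
      have h6 : b ψ v v < b φ v v * (1 - d) := by linarith
      have h7 : (1 + d) * b ψ v v ≤ (1 + d) * (b φ v v * (1 - d)) :=
        mul_le_mul_of_nonneg_left h6.le (by linarith)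
      have h8 : (1 + d) * (b φ v v * (1 - d)) = b φ v v - d ^ 2 * b φ v v := by ring
      by_cases hb0 : b φ v v = 0
      · rw [hb0] at h6; linarith
      · have h9 : 0 < b φ v v := lt_of_le_of_ne h4 (Ne.symm hb0)
        have h10 : (1 + d) * b ψ v v < (1 + d) * (b φ v v * (1 - d)) :=
          mul_lt_mul_of_pos_left h6 (by linarith)
        nlinarith [sq_nonneg d]
    · linarith
  have hEv : |Ev a (b ψ) j - E j| ≤ ε₀ := by
    have h1 := hcont (x := ψ) (by rw [dist_eq_norm]; exact lt_of_lt_of_le hψ (min_le_left _ _))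
    rw [Real.dist_eq, hmm] at h1
    exact h1.le
  obtain ⟨v, hv, hvw, hww⟩ := hcore (b ψ) d (Ev a (b ψ) j) (hF ψ).sb hd0
    (hdε.trans (min_le_left _ _)) hclose (l1 ψ j) hEv w hw
  refine ⟨v, by rw [hmm]; exact hv, ?_⟩
  -- first difference
  have hkK : ∀ v, |k φ v v| ≤ K * b φ v v := fun v =>
    ((k1 φ v).2).trans (mul_le_mul_of_nonneg_right (by rw [hK]; linarith) ((hF φ).nb v))
  have hd1 : |kap μ i h φ v - kap μ i h φ w| ≤ η / 4 + η / 4 + η / 8 + η / 8 := by
    rw [← (k1 φ v).1, ← (k1 φ w).1]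
    have e1 : k φ v v - k φ w w = k φ (v - w) (v - w) + 2 * k φ (v - w) w := by
      simp only [map_sub, sub_apply]
      rw [ksym φ w v]; ring
    rw [e1]
    have h1 := hkK (v - w)
    have h2 := cross2 (ksym φ) (hF φ).sb hkK hTpos (v - w) w
    have h3 : K * b φ (v - w) (v - w) ≤ η / 4 := by
      calc K * b φ (v - w) (v - w) ≤ K * (η / (4 * K)) :=
            mul_le_mul_of_nonneg_left (hvw.trans (min_le_left _ _)) hKpos.le
        _ = η / 4 := by field_simp
    have h4 : K * (T * b φ (v - w) (v - w)) ≤ η / 4 := by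
      calc K * (T * b φ (v - w) (v - w)) ≤ K * (T * (η / (4 * (K * T)))) := by
            refine mul_le_mul_of_nonneg_left ?_ hKpos.le
            exact mul_le_mul_of_nonneg_left (hvw.trans (min_le_right _ _)) hTpos.le
        _ = η / 4 := by field_simp
    have h5 : K * (b φ w w / T) ≤ η / 8 := by
      calc K * (b φ w w / T) ≤ K * (2 / T) := by
            refine mul_le_mul_of_nonneg_left ?_ hKpos.le
            exact div_le_div_of_nonneg_right hww hTpos.le
        _ = η / 8 := by rw [hT]; field_simp; norm_num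
    calc |k φ (v - w) (v - w) + 2 * k φ (v - w) w|
        ≤ |k φ (v - w) (v - w)| + |2 * k φ (v - w) w| := abs_add_le _ _
      _ = |k φ (v - w) (v - w)| + 2 * |k φ (v - w) w| := by rw [abs_mul, abs_two]
      _ ≤ _ := by
        have h6 : K * (T * b φ (v - w) (v - w) + b φ w w / T) =
          K * (T * b φ (v - w) (v - w)) + K * (b φ w w / T) := by ring
        rw [h6] at h2
        linarith
  have hd2 : |kap μ i h ψ w - kap μ i h φ w| ≤ η / 4 := by
    refine (kap_sub_right μ i b hB h φ ψ w).trans ?_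
    rw [← hd]
    have h1 : d * b φ w w ≤ η / (8 * K) * 2 :=
      mul_le_mul (hdε.trans (min_le_right _ _)) hww ((hF φ).nb w) (by positivity)
    calc ‖h‖ * (d * b φ w w) ≤ K * (η / (8 * K) * 2) :=
          mul_le_mul (by rw [hK]; linarith) h1 (mul_nonneg hd0 ((hF φ).nb w)) hKpos.le
      _ = η / 4 := by field_simp; norm_num
  have e3 : kap μ i h φ v - kap μ i h ψ w = (kap μ i h φ v - kap μ i h φ w) -
    (kap μ i h ψ w - kap μ i h φ w) := by ring
  rw [e3]
  refine (abs_sub _ _).trans ?_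
  linarith

end kap

end Pool.Agent.Q205.QLim
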